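import Pool.Agent.H92.UV.Grp

/-!
The reduced group and piecing together (`T_CORE`, `T_CELL`, `T_LOCP`).
-/

set_option autoImplicit false

open Set

namespace Pool.Agent.H92.UV

open Pool.Agent.H71 Pool.Agent.H72.UV

variable {G : Subgroup (Equiv.Perm ℕ)}

lemma mem_core {g : Equiv.Perm ℕ} : g ∈ core G ↔ g ∈ G ∧ ∀ a ∈ acl G ∅, g a = a := Iff.rfl

lemma core_le (G : Subgroup (Equiv.Perm ℕ)) : core G ≤ G := fun _ hg => hg.1

lemma orb_core {K : Finset ℕ} (hK : ∀ x, x ∈ K ↔ x ∈ acl G ∅) (F : Finset ℕ) (a : ℕ) :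
    orb (core G) F a = orb G (F ∪ K) a := by
  ext b
  constructor
  · rintro ⟨h, ⟨hh, hF⟩, rfl⟩
    refine ⟨h, ⟨hh.1, ?_⟩, rfl⟩
    intro x hx
    rcases Finset.mem_union.1 hx with hx | hx
    · exact hF x hx
    · exact hh.2 x ((hK x).1 hx)
  · rintro ⟨h, hh, rfl⟩
    refine ⟨h, ⟨⟨hh.1, ?_⟩, ?_⟩, rfl⟩
    · intro x hx
      exact hh.2 x (Finset.mem_union_right _ ((hK x).2 hx))
    · intro x hx
      exact hh.2 x (Finset.mem_union_left _ hx)

lemma acl_core (hG : Finry G) (hO : Olig G) (F : Finset ℕ) : acl (core G) F = acl G F := by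
  classical
  have hKfin := acl_fin hO ∅
  have hK : ∀ x, x ∈ hKfin.toFinset ↔ x ∈ acl G ∅ := fun x => by rw [Set.Finite.mem_toFinset]
  have hKcl : acl G hKfin.toFinset ⊆ acl G ∅ := acl_subset_acl fun x hx => (hK x).1 hx
  have h1 : acl (core G) F = acl G (F ∪ hKfin.toFinset) := by
    ext a
    change (orb (core G) F a).Finite ↔ (orb G (F ∪ hKfin.toFinset) a).Finite
    rw [orb_core hK]
  rw [h1]
  apply Set.Subset.antisymm
  · intro a ha
    rcases dis2 hG hO ha with h | h
    · exact h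
    · exact acl_mono (Finset.empty_subset F) (hKcl h)
  · exact acl_mono Finset.subset_union_left

theorem core_thm : T_CORE := by
  classical
  intro G hG hO
  refine ⟨?_, ?_, acl_core hG hO⟩
  · intro n
    have hKfin := acl_fin hO ∅
    set K := hKfin.toFinset with hKdef
    have hK : ∀ x, x ∈ K ↔ x ∈ acl G ∅ := fun x => by rw [hKdef, Set.Finite.mem_toFinset]
    obtain ⟨E, hE, hE2⟩ := hO (n + K.card)
    let κ : Fin K.card → ℕ := fun i => K.equivFin.symm i
    let t : (Fin n → ℕ) → Fin (n + K.card) → ℕ := fun a => Fin.append a κ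
    have hch : ∀ e : Fin (n + K.card) → ℕ, ∃ a : Fin n → ℕ,
        (∃ a' : Fin n → ℕ, ∃ h ∈ G, ∀ i, h (e i) = t a' i) → ∃ h ∈ G, ∀ i, h (e i) = t a i := by
      intro e
      by_cases h : ∃ a' : Fin n → ℕ, ∃ h ∈ G, ∀ i, h (e i) = t a' i
      · obtain ⟨a', h'⟩ := h
        exact ⟨a', fun _ => h'⟩
      · exact ⟨fun _ => 0, fun h' => absurd h' h⟩
    choose r hr using hch
    refine ⟨r '' E, hE.image r, ?_⟩
    intro a
    obtain ⟨e, he, h, hh, hhe⟩ := hE2 (t a)
    obtain ⟨h', hh', hhe'⟩ := hr e ⟨a, h, hh, hhe⟩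
    have key : ∀ i, (h * h'⁻¹) (t (r e) i) = t a i := by
      intro i
      rw [Equiv.Perm.mul_apply, ← hhe i]
      congr 1
      rw [Equiv.Perm.inv_eq_iff_eq]
      exact (hhe' i).symm
    refine ⟨r e, Set.mem_image_of_mem _ he, h * h'⁻¹,
      ⟨G.mul_mem hh (G.inv_mem hh'), ?_⟩, ?_⟩
    · intro x hx
      have h1 := key (Fin.natAdd n (K.equivFin ⟨x, (hK x).2 hx⟩))
      simpa [t, κ] using h1
    · intro i
      have h1 := key (Fin.castAdd K.card i)
      simpa [t] using h1
  · intro a ha g hg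
    rw [acl_core hG hO] at ha
    exact hg.2 a ha

lemma self_mem_cell {x : ℕ} (hx : x ∉ acl G ∅) : x ∈ cell G x :=
  ⟨subset_acl G {x} (by simp), hx⟩

lemma cell_fin (hO : Olig G) (x : ℕ) : (cell G x).Finite := (acl_fin hO {x}).subset Set.sdiff_subset

theorem cell_thm : T_CELL := by
  classical
  intro G hG hO hR D
  induction D using Finset.strongInduction with
  | H D ih =>
    intro f hinj hcl hK0 hC0
    have hKfin := acl_fin hO ∅
    set K := hKfin.toFinset with hKdef
    have hK : ∀ x, x ∈ K ↔ x ∈ acl G ∅ := fun x => by rw [hKdef, Set.Finite.mem_toFinset]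
    have hKcl : acl G K ⊆ acl G ∅ := acl_subset_acl fun x hx => (hK x).1 hx
    by_cases hall : ∀ x ∈ D, x ∈ acl G ∅
    · exact ⟨1, G.one_mem, fun y hy => by simpa using hK0 y hy (hall y hy)⟩
    · push Not at hall
      obtain ⟨x, hxD, hxK⟩ := hall
      have hCfin := cell_fin (G := G) hO x
      set C := hCfin.toFinset with hCdef
      have hC : ∀ y, y ∈ C ↔ y ∈ cell G x := fun y => by rw [hCdef, Set.Finite.mem_toFinset]
      have hCD : C ⊆ D := fun y hy => by
        have := hcl x hxD hxK ((hC y).1 hy)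
        exact this
      have hxC : x ∈ C := (hC x).2 (self_mem_cell hxK)
      have hcell : ∀ y, y ∈ C → cell G y = cell G x := fun y hy =>
        exch2 hG hO x y hxK ((hC y).1 hy)
      have hD'cl : ∀ z ∈ D \ C, z ∉ acl G ∅ → cell G z ⊆ ((D \ C : Finset ℕ) : Set ℕ) := by
        intro z hz hzK w hw
        obtain ⟨hzD, hzC⟩ := Finset.mem_sdiff.1 hz
        have hwD := hcl z hzD hzK hw
        rw [Finset.mem_coe, Finset.mem_sdiff]
        refine ⟨hwD, fun hwC => hzC ?_⟩
        rw [hC]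
        have e1 := exch2 hG hO z w hzK hw
        rw [← hcell w hwC, e1]
        exact self_mem_cell hzK
      obtain ⟨g', hg', hfg'⟩ := ih (D \ C)
        (Finset.sdiff_ssubset hCD ⟨x, hxC⟩) f
        (hinj.mono (by intro y hy; exact (Finset.mem_sdiff.1 (Finset.mem_coe.1 hy)).1)) hD'cl
        (fun z hz => hK0 z (Finset.mem_sdiff.1 hz).1)
        (fun z hz => hC0 z (Finset.mem_sdiff.1 hz).1)
      obtain ⟨h0, hh0, hfh0⟩ := hC0 x hxD hxK
      set h := g'⁻¹ * h0 with hh
      have hhG : h ∈ G := G.mul_mem (G.inv_mem hg') hh0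
      have hhD' : ∀ c ∈ C, h c ∉ D \ C := by
        intro c hc hmem
        have h1 := hfg' _ hmem
        rw [hh, Equiv.Perm.mul_apply, ← hfh0 c ((hC c).1 hc)] at h1
        have h2 : g' (g'⁻¹ (f c)) = f c := by simp
        rw [h2] at h1
        have h3 : g'⁻¹ (f c) = h c := by
          rw [hh, Equiv.Perm.mul_apply, ← hfh0 c ((hC c).1 hc)]
        rw [h3] at h1
        have h4 := hinj (Finset.mem_coe.2 (Finset.mem_sdiff.1 hmem).1) (Finset.mem_coe.2 (hCD hc)) h1
        rw [h4] at hmem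
        exact (Finset.mem_sdiff.1 hmem).2 hc
      have hFcl : acl G (D \ C ∪ K) ⊆ ((D \ C ∪ K : Finset ℕ) : Set ℕ) := by
        intro a ha
        rw [Finset.mem_coe, Finset.mem_union]
        rcases dis1 hG hO _ _ ha with h1 | ⟨b, hb, h1⟩
        · exact Or.inr ((hK a).2 h1)
        · by_cases haK : a ∈ acl G ∅
          · exact Or.inr ((hK a).2 haK)
          · by_cases hbK : b ∈ acl G ∅
            · exfalso
              apply haK
              have : acl G {b} ⊆ acl G ∅ := acl_subset_acl (by simpa using hbK)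
              exact this h1
            · have hbD : b ∈ D \ C := by
                rcases Finset.mem_union.1 hb with h | h
                · exact h
                · exact absurd ((hK b).1 h) hbK
              exact Or.inl (hD'cl b hbD hbK ⟨h1, haK⟩)
      obtain ⟨t, ht, ht2⟩ := neumann (G := G) (F := C ∪ C.image h) (D := (D \ C) \ K)
        {y | h y ≠ y} (hG h hhG) (by
          intro d hd hmem
          obtain ⟨hdD, hdK⟩ := Finset.mem_sdiff.1 hd
          rw [hK] at hdK
          have hdF : d ∈ D \ C ∪ K := Finset.mem_union_left _ hdD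
          rcases dis1 hG hO _ _ hmem with h1 | ⟨c, hc, h1⟩
          · exact hdK h1
          · have h2 := exch1 hG hO h1 hdK
            have h3 : c ∈ D \ C ∪ K := by
              have : acl G {d} ⊆ acl G (D \ C ∪ K) := acl_mono (by simpa using hdF)
              exact hFcl (this h2)
            rcases Finset.mem_union.1 hc with hc | hc
            · rcases Finset.mem_union.1 h3 with h3 | h3
              · exact (Finset.mem_sdiff.1 h3).2 hc
              · exact ((hC c).1 hc).2 ((hK c).1 h3)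
            · obtain ⟨c', hc', rfl⟩ := Finset.mem_image.1 hc
              rcases Finset.mem_union.1 h3 with h3 | h3
              · exact hhD' c' hc' h3
              · exact ((hC c').1 hc').2 ((mem_acl_empty hhG).1 ((hK _).1 h3)))
      refine ⟨g' * (t⁻¹ * h * t), G.mul_mem hg'
        (G.mul_mem (G.mul_mem (G.inv_mem ht.1) hhG) ht.1), ?_⟩
      intro y hy
      by_cases hyC : y ∈ C
      · simp only [Equiv.Perm.mul_apply]
        rw [ht.2 y (Finset.mem_union_left _ hyC)]
        have h1 : t⁻¹ (h y) = h y := by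
          rw [Equiv.Perm.inv_eq_iff_eq]
          exact (ht.2 _ (Finset.mem_union_right _ (Finset.mem_image_of_mem _ hyC))).symm
        rw [h1, hh, Equiv.Perm.mul_apply, hfh0 y ((hC y).1 hyC)]
        simp
      · have hyD' : y ∈ D \ C := Finset.mem_sdiff.2 ⟨hy, hyC⟩
        rw [hfg' y hyD', Equiv.Perm.mul_apply]
        congr 1
        symm
        simp only [Equiv.Perm.mul_apply]
        rw [Equiv.Perm.inv_eq_iff_eq]
        by_cases hyK : y ∈ acl G ∅
        · exact hR _ ((mem_acl_empty ht.1).2 hyK) h hhG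
        · have := ht2 y (Finset.mem_sdiff.2 ⟨hyD', fun hyK' => hyK ((hK y).1 hyK')⟩)
          simpa using this

theorem locp : T_LOCP := by
  classical
  intro G hG hO hR S f hinj hcl hK0 hC0 D hDS
  have hfin : (⋃ x ∈ D.filter (· ∉ acl G ∅), cell G x).Finite :=
    Set.Finite.biUnion (Finset.finite_toSet _) fun x _ => cell_fin hO x
  set D' := D ∪ hfin.toFinset with hD'
  have hmem : ∀ y, y ∈ D' ↔ y ∈ D ∨ ∃ x ∈ D, x ∉ acl G ∅ ∧ y ∈ cell G x := by
    intro y
    rw [hD', Finset.mem_union, Set.Finite.mem_toFinset]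
    simp only [Finset.mem_filter, mem_iUnion, exists_prop]
    constructor
    · rintro (h | ⟨x, ⟨h1, h2⟩, h3⟩)
      · exact Or.inl h
      · exact Or.inr ⟨x, h1, h2, h3⟩
    · rintro (h | ⟨x, h1, h2, h3⟩)
      · exact Or.inl h
      · exact Or.inr ⟨x, ⟨h1, h2⟩, h3⟩
  have hD'S : (D' : Set ℕ) ⊆ S := by
    intro y hy
    rcases (hmem y).1 hy with h | ⟨x, h1, h2, h3⟩
    · exact hDS h
    · exact hcl x (hDS h1) h2 h3
  obtain ⟨g, hg, hg2⟩ := cell_thm G hG hO hR D' f (hinj.mono hD'S) (by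
    intro y hy hyK z hz
    rw [Finset.mem_coe, hmem]
    rcases (hmem y).1 hy with h | ⟨x, h1, h2, h3⟩
    · exact Or.inr ⟨y, h, hyK, hz⟩
    · refine Or.inr ⟨x, h1, h2, ?_⟩
      rw [← exch2 hG hO x y h2 h3]
      exact hz) (fun x hx => hK0 x (hD'S hx)) (fun x hx => hC0 x (hD'S hx))
  exact ⟨g, hg, fun x hx => hg2 x ((hmem x).2 (Or.inl hx))⟩

end Pool.Agent.H92.UV
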