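import Pool.Agent.H72.UV.Targets

/-!
acl in oligomorphic groups of finitary permutations (`T_GRP`).
-/

set_option autoImplicit false

open Set
open scoped Pointwise

namespace Pool.Agent.H92.UV

open Pool.Agent.H71 Pool.Agent.H72.UV

section general

variable {α : Type} [DecidableEq α] {G : Subgroup (Equiv.Perm α)}

omit [DecidableEq α] in
/-- Neumann: a finite set without points of `acl` can be moved off a finite set -/
lemma neumann {F D : Finset α} (E : Set α) (hE : E.Finite) (hD : ∀ d ∈ D, d ∉ acl G F) :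
    ∃ g ∈ Fx G F, ∀ d ∈ D, g d ∉ E := by
  classical
  by_contra hcon
  push Not at hcon
  let Γ := Fx G F
  let s : Finset (α × α) := D ×ˢ hE.toFinset
  have hch : ∀ p : α × α, ∃ g : Γ, (∃ g' : Γ, (g' : Equiv.Perm α) p.1 = p.2) →
      (g : Equiv.Perm α) p.1 = p.2 := by
    intro p
    by_cases h : ∃ g' : Γ, (g' : Equiv.Perm α) p.1 = p.2
    · obtain ⟨g', hg'⟩ := h
      exact ⟨g', fun _ => hg'⟩
    · exact ⟨1, fun h' => absurd h' h⟩
  choose γ hγ using hch
  have hcov : ⋃ p ∈ s, γ p • ((MulAction.stabilizer Γ p.1 : Subgroup Γ) : Set Γ) = Set.univ := by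
    rw [Set.eq_univ_iff_forall]
    intro g
    obtain ⟨d, hd, he⟩ := hcon g g.2
    have hp : (d, (g : Equiv.Perm α) d) ∈ s := by
      simp only [s, Finset.mem_product, Set.Finite.mem_toFinset]
      exact ⟨hd, he⟩
    refine Set.mem_biUnion hp ?_
    rw [Set.mem_smul_set_iff_inv_smul_mem, SetLike.mem_coe, MulAction.mem_stabilizer_iff]
    have h1 := hγ (d, (g : Equiv.Perm α) d) ⟨g, rfl⟩
    change ((γ (d, (g : Equiv.Perm α) d))⁻¹ * g) • d = d
    rw [mul_smul, inv_smul_eq_iff]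
    exact h1.symm
  obtain ⟨p, hp, hfin⟩ := Subgroup.exists_finiteIndex_of_leftCoset_cover hcov
  have hpD : p.1 ∈ D := (Finset.mem_product.1 hp).1
  apply hD p.1 hpD
  change (orb G F p.1).Finite
  have h2 : (MulAction.orbit Γ p.1).Finite := by
    have e := MulAction.orbitEquivQuotientStabilizer Γ p.1
    have : Finite (Γ ⧸ MulAction.stabilizer Γ p.1) := Subgroup.finite_quotient_of_finiteIndex
    have : Finite (MulAction.orbit Γ p.1) := Finite.of_equiv _ e.symm
    exact Set.toFinite _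
  refine h2.subset ?_
  rintro b ⟨g, hg, rfl⟩
  exact ⟨⟨g, hg⟩, rfl⟩

lemma orb_conj {F : Finset α} {g : Equiv.Perm α} (hg : g ∈ G) (a : α) :
    orb G (F.image g) (g a) = g '' orb G F a := by
  ext b
  constructor
  · rintro ⟨h, hh, rfl⟩
    refine ⟨(g⁻¹ * h * g) a, ⟨g⁻¹ * h * g, ⟨G.mul_mem (G.mul_mem (G.inv_mem hg) hh.1) hg, ?_⟩, rfl⟩,
      by simp⟩
    intro x hx
    have := hh.2 (g x) (Finset.mem_image_of_mem _ hx)
    simp [Equiv.Perm.mul_apply, this]
  · rintro ⟨_, ⟨h, hh, rfl⟩, rfl⟩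
    refine ⟨g * h * g⁻¹, ⟨G.mul_mem (G.mul_mem hg hh.1) (G.inv_mem hg), ?_⟩, by simp⟩
    intro x hx
    obtain ⟨y, hy, rfl⟩ := Finset.mem_image.1 hx
    have := hh.2 y hy
    simp [Equiv.Perm.mul_apply, this]

lemma mem_acl_conj {F : Finset α} {g : Equiv.Perm α} (hg : g ∈ G) {a : α} :
    g a ∈ acl G (F.image g) ↔ a ∈ acl G F := by
  change (orb G (F.image g) (g a)).Finite ↔ (orb G F a).Finite
  rw [orb_conj hg]
  exact Set.finite_image_iff g.injective.injOn

lemma acl_conj {F : Finset α} {g : Equiv.Perm α} (hg : g ∈ G) :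
    acl G (F.image g) = g '' acl G F := by
  ext b
  constructor
  · intro hb
    refine ⟨g⁻¹ b, ?_, by simp⟩
    rw [← mem_acl_conj hg]
    simpa using hb
  · rintro ⟨a, ha, rfl⟩
    exact (mem_acl_conj hg).2 ha

/-- elements of `G` preserve `acl ∅` -/
lemma mem_acl_empty {g : Equiv.Perm α} (hg : g ∈ G) {a : α} : g a ∈ acl G ∅ ↔ a ∈ acl G ∅ := by
  have := mem_acl_conj (F := ∅) hg (a := a)
  simpa using this

/-- disjoint copies -/
lemma copies {F D : Finset α} (hD : ∀ d ∈ D, d ∉ acl G F) (k : ℕ) :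
    ∃ h : Fin k → Equiv.Perm α, (∀ j, h j ∈ Fx G F) ∧
      ∀ i j, i ≠ j → Disjoint (D.image (h i)) (D.image (h j)) := by
  induction k with
  | zero => exact ⟨fun _ => 1, fun j => j.elim0, fun i => i.elim0⟩
  | succ k ih =>
    obtain ⟨h, h1, h2⟩ := ih
    let E : Finset α := Finset.univ.biUnion fun j => D.image (h j)
    obtain ⟨g, hg, hgE⟩ := neumann (G := G) (F := F) (D := D) (E : Set α) E.finite_toSet hD
    have key : ∀ j : Fin k, Disjoint (D.image (h j)) (D.image g) := by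
      intro j
      rw [Finset.disjoint_left]
      intro x hx hx'
      obtain ⟨d, hd, rfl⟩ := Finset.mem_image.1 hx'
      exact hgE d hd (Finset.mem_coe.2 (Finset.mem_biUnion.2 ⟨j, Finset.mem_univ _, hx⟩))
    refine ⟨Fin.snoc h g, ?_, ?_⟩
    · intro j
      induction j using Fin.lastCases with
      | last => simpa using hg
      | cast j => simpa using h1 j
    · intro i j hij
      induction i using Fin.lastCases with
      | last =>
        induction j using Fin.lastCases with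
        | last => exact absurd rfl hij
        | cast j => simpa using (key j).symm
      | cast i =>
        induction j using Fin.lastCases with
        | last => simpa using key i
        | cast j =>
          have : i ≠ j := fun h => hij (by rw [h])
          simpa using h2 i j this

end general

section olig

variable {G : Subgroup (Equiv.Perm ℕ)}

/-- finitely many orbits of the stabiliser on points -/
lemma orbs_finite (hO : Olig G) (F : Finset ℕ) : (range (orb G F)).Finite := by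
  classical
  obtain ⟨E, hE, hE2⟩ := hO (F.card + 1)
  let f : Fin F.card → ℕ := fun i => F.equivFin.symm i
  let t : ℕ → Fin (F.card + 1) → ℕ := fun a => Fin.snoc f a
  have h1 : ∀ a, ∃ e ∈ E, ∃ h ∈ G, ∀ i, h (e i) = t a i := fun a => hE2 (t a)
  choose e he h hh hhe using h1
  have h2 : ∀ a a', e a = e a' → orb G F a = orb G F a' := by
    intro a a' haa
    symm
    apply orb_eq
    refine ⟨h a' * (h a)⁻¹, ⟨G.mul_mem (hh a') (G.inv_mem (hh a)), ?_⟩, ?_⟩
    · intro x hx
      have h3 := hhe a (Fin.castSucc (F.equivFin ⟨x, hx⟩))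
      have h4 := hhe a' (Fin.castSucc (F.equivFin ⟨x, hx⟩))
      have e1 : ∀ b, t b (Fin.castSucc (F.equivFin ⟨x, hx⟩)) = x := by
        intro b
        simp [t, f]
      rw [e1] at h3 h4
      rw [Equiv.Perm.mul_apply]
      have h5 : (h a)⁻¹ x = e a (Fin.castSucc (F.equivFin ⟨x, hx⟩)) := by
        rw [Equiv.Perm.inv_eq_iff_eq]; exact h3.symm
      rw [h5, haa, h4]
    · have h3 := hhe a (Fin.last _)
      have h4 := hhe a' (Fin.last _)
      have e1 : ∀ b, t b (Fin.last _) = b := by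
        intro b
        simp [t]
      rw [e1] at h3 h4
      rw [Equiv.Perm.mul_apply]
      have h5 : (h a)⁻¹ a = e a (Fin.last _) := by
        rw [Equiv.Perm.inv_eq_iff_eq]; exact h3.symm
      rw [h5, haa, h4]
  let Ψ : (Fin (F.card + 1) → ℕ) → Set ℕ := fun x =>
    if hx : ∃ a, e a = x then orb G F hx.choose else ∅
  refine (hE.image Ψ).subset ?_
  rintro _ ⟨a, rfl⟩
  refine ⟨e a, he a, ?_⟩
  have hx : ∃ a', e a' = e a := ⟨a, rfl⟩
  simp only [Ψ, dif_pos hx]
  exact h2 _ _ hx.choose_spec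

lemma acl_fin (hO : Olig G) (F : Finset ℕ) : (acl G F).Finite := by
  have h1 : acl G F ⊆ ⋃ s ∈ {s ∈ range (orb G F) | s.Finite}, s := by
    intro a ha
    exact Set.mem_biUnion (x := orb G F a) ⟨⟨a, rfl⟩, ha⟩ (self_mem_orb G F a)
  refine Set.Finite.subset (Set.Finite.biUnion ((orbs_finite hO F).subset (Set.sep_subset _ _)) ?_) h1
  rintro s ⟨_, hs⟩
  exact hs

lemma acl_bdd (hO : Olig G) (k : ℕ) : ∃ n, ∀ F : Finset ℕ, F.card ≤ k → (acl G F).ncard ≤ n := by
  classical
  obtain ⟨E, hE, hE2⟩ := hO k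
  obtain ⟨n, hn⟩ : ∃ n, ∀ e ∈ E, (acl G (Finset.univ.image e)).ncard ≤ n := by
    obtain ⟨n, hn⟩ := (hE.image fun e => (acl G (Finset.univ.image e)).ncard).bddAbove
    exact ⟨n, fun e he => hn (Set.mem_image_of_mem _ he)⟩
  refine ⟨n, fun F hF => ?_⟩
  obtain ⟨F', hFF', hF'⟩ := Infinite.exists_superset_card_eq F k hF
  let t : Fin k → ℕ := fun i => F'.equivFin.symm (i.cast hF'.symm)
  have ht : Finset.univ.image t = F' := by
    ext x
    simp only [Finset.mem_image, Finset.mem_univ, true_and, t]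
    constructor
    · rintro ⟨i, rfl⟩
      exact (F'.equivFin.symm _).2
    · intro hx
      exact ⟨(F'.equivFin ⟨x, hx⟩).cast hF', by simp⟩
  obtain ⟨e, he, h, hh, hhe⟩ := hE2 t
  have e1 : (Finset.univ.image e).image h = F' := by
    rw [← ht, Finset.image_image]
    congr 1
    ext i
    exact hhe i
  have e2 : (acl G F').ncard ≤ n := by
    rw [← e1, acl_conj hh, Set.ncard_image_of_injective _ h.injective]
    exact hn e he
  exact (Set.ncard_le_ncard (acl_mono hFF') (acl_fin hO F')).trans e2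

lemma f0 (hG : Finry G) (hO : Olig G) {E : Finset ℕ} {y : ℕ} (hy : y ∉ acl G E) (a : ℕ) :
    ∃ k₀ : ℕ, ∀ T : Fin k₀ → Finset ℕ, (∀ i j, i ≠ j → Disjoint (T i) (T j)) →
      (∀ i, (T i).card ≤ a) → ∃ i, y ∉ acl G (E ∪ T i) := by
  classical
  obtain ⟨n, hn⟩ := acl_bdd hO (E.card + a)
  have hinf : (orb G E y).Infinite := hy
  obtain ⟨Y, hY, hYc⟩ := hinf.exists_subset_card_eq (n + 1)
  have hch : ∀ z : ℕ, ∃ u : Equiv.Perm ℕ, z ∈ Y → u ∈ Fx G E ∧ u y = z := by
    intro z
    by_cases hz : z ∈ Y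
    · obtain ⟨u, hu, hu2⟩ := hY hz
      exact ⟨u, fun _ => ⟨hu, hu2⟩⟩
    · exact ⟨1, fun h => absurd h hz⟩
  choose u hu using hch
  have hUfin : (⋃ z ∈ Y, {x | u z x ≠ x}).Finite :=
    Set.Finite.biUnion Y.finite_toSet fun z hz => hG _ (hu z hz).1.1
  set U := hUfin.toFinset with hU
  refine ⟨U.card + 1, fun T hT hTa => ?_⟩
  obtain ⟨i, hi⟩ : ∃ i, Disjoint (T i) U := by
    by_contra hcon
    push Not at hcon
    have : ∀ i, ∃ x, x ∈ T i ∧ x ∈ U := fun i => Finset.not_disjoint_iff.1 (hcon i)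
    choose x hx1 hx2 using this
    have hinj : Function.Injective x := by
      intro i j hij
      by_contra hne
      exact Finset.disjoint_left.1 (hT i j hne) (hx1 i) (hij ▸ hx1 j)
    have := Finset.card_le_card_of_injOn (s := Finset.univ) (t := U) x (fun i _ => hx2 i)
      hinj.injOn
    simp at this
  refine ⟨i, fun hmem => ?_⟩
  have hsub : (Y : Set ℕ) ⊆ acl G (E ∪ T i) := by
    intro z hz
    obtain ⟨h1, h2⟩ := hu z hz
    refine mem_acl_of_mem_orb (a := y) ⟨u z, ⟨h1.1, ?_⟩, h2⟩ hmem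
    intro x hx
    rcases Finset.mem_union.1 hx with hx | hx
    · exact h1.2 x hx
    · by_contra hne
      have : x ∈ U := by
        rw [hU, Set.Finite.mem_toFinset]
        exact Set.mem_biUnion hz hne
      exact Finset.disjoint_left.1 hi hx this
  have h3 := Set.ncard_le_ncard hsub (acl_fin hO _)
  rw [Set.ncard_coe_finset, hYc] at h3
  have h4 := hn (E ∪ T i) ((Finset.card_union_le _ _).trans (Nat.add_le_add_left (hTa i) _))
  omega

lemma f0' (hG : Finry G) (hO : Olig G) {E : Finset ℕ} {y : ℕ} (hy : y ∉ acl G E) (a : ℕ) :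
    ∃ k₀ : ℕ, ∀ g ∈ G, ∀ T : Fin k₀ → Finset ℕ, (∀ i j, i ≠ j → Disjoint (T i) (T j)) →
      (∀ i, (T i).card ≤ a) → ∃ i, g y ∉ acl G (E.image g ∪ T i) := by
  classical
  obtain ⟨k₀, hk⟩ := f0 hG hO hy a
  refine ⟨k₀, fun g hg T hT hTa => ?_⟩
  obtain ⟨i, hi⟩ := hk (fun i => (T i).image (g⁻¹ : Equiv.Perm ℕ)) (fun i j hij => by
      rw [Finset.disjoint_image (g⁻¹ : Equiv.Perm ℕ).injective]
      exact hT i j hij)
    (fun i => Finset.card_image_le.trans (hTa i))
  refine ⟨i, fun hmem => hi ?_⟩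
  rw [← mem_acl_conj hg]
  have e : (E ∪ (T i).image (g⁻¹ : Equiv.Perm ℕ)).image g = E.image g ∪ T i := by
    rw [Finset.image_union, Finset.image_image]
    congr 1
    have : (g : ℕ → ℕ) ∘ (g⁻¹ : Equiv.Perm ℕ) = id := by
      ext x; simp
    rw [this, Finset.image_id]
  rw [e]
  exact hmem

lemma dis2 (hG : Finry G) (hO : Olig G) {A B : Finset ℕ} {y : ℕ} (hy : y ∈ acl G (A ∪ B)) :
    y ∈ acl G A ∨ y ∈ acl G B := by
  classical
  by_contra hcon
  push Not at hcon
  obtain ⟨hyA, hyB⟩ := hcon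
  set B0 := B.filter (· ∈ acl G A) with hB0
  set B1 := B.filter (· ∉ acl G A) with hB1
  set A0 := A.filter (· ∈ acl G B0) with hA0
  set A1 := A.filter (· ∉ acl G B0) with hA1
  have hB0A : (B0 : Set ℕ) ⊆ acl G A := fun x hx => (Finset.mem_filter.1 hx).2
  have hA0B : (A0 : Set ℕ) ⊆ acl G B0 := fun x hx => (Finset.mem_filter.1 hx).2
  have hBB : B0 ∪ B1 = B := Finset.filter_union_filter_not_eq _ _
  have hAA : A0 ∪ A1 = A := Finset.filter_union_filter_not_eq _ _
  have hB0B : B0 ⊆ B := Finset.filter_subset _ _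
  have hA0A : A0 ⊆ A := Finset.filter_subset _ _
  -- closures
  have c1 : acl G (A0 ∪ B) ⊆ acl G B := by
    apply acl_subset_acl
    rw [Finset.coe_union]
    exact Set.union_subset (hA0B.trans (acl_mono hB0B)) (subset_acl G B)
  have c2 : acl G (A0 ∪ B0) ⊆ acl G B0 := by
    apply acl_subset_acl
    rw [Finset.coe_union]
    exact Set.union_subset hA0B (subset_acl G B0)
  have c3 : acl G (A ∪ B0) ⊆ acl G A := by
    apply acl_subset_acl
    rw [Finset.coe_union]
    exact Set.union_subset (subset_acl G A) hB0A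
  obtain ⟨k₀, hk⟩ := f0' hG hO (E := A0 ∪ B) (y := y) (fun h => hyB (c1 h)) A1.card
  obtain ⟨h, hh, hdis⟩ := copies (G := G) (F := A0 ∪ B0) (D := A1)
    (fun d hd hmem => (Finset.mem_filter.1 hd).2 (c2 hmem)) k₀
  have hSfin : (⋃ j, {x | h j x ≠ x}).Finite := Set.finite_iUnion fun j => hG _ (hh j).1
  obtain ⟨g, hg, hgE⟩ := neumann (G := G) (F := A ∪ B0) (D := insert y B1) _ hSfin (by
    intro d hd hmem
    rcases Finset.mem_insert.1 hd with rfl | hd
    · exact hyA (c3 hmem)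
    · exact (Finset.mem_filter.1 hd).2 (c3 hmem))
  have hfix : ∀ j, ∀ x ∈ insert y B1, h j (g x) = g x := by
    intro j x hx
    by_contra hne
    exact hgE x hx (Set.mem_iUnion.2 ⟨j, hne⟩)
  obtain ⟨j, hj⟩ := hk g hg.1 (fun j => A1.image (h j)) hdis (fun j => Finset.card_image_le)
  apply hj
  -- `g y ∈ acl (A ∪ g B)`
  have s1 : g y ∈ acl G ((A ∪ B).image g) := (mem_acl_conj hg.1).2 hy
  have s2 : h j (g y) ∈ acl G (((A ∪ B).image g).image (h j)) := (mem_acl_conj (hh j).1).2 s1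
  rw [hfix j y (Finset.mem_insert_self _ _)] at s2
  refine acl_mono ?_ s2
  intro x hx
  obtain ⟨x', hx', rfl⟩ := Finset.mem_image.1 hx
  obtain ⟨z, hz, rfl⟩ := Finset.mem_image.1 hx'
  rw [← hAA, ← hBB] at hz
  simp only [Finset.mem_union] at hz ⊢
  have gA : ∀ x ∈ A, g x = x := fun x hx => hg.2 x (Finset.mem_union_left _ hx)
  have gB0 : ∀ x ∈ B0, g x = x := fun x hx => hg.2 x (Finset.mem_union_right _ hx)
  rcases hz with (hz | hz) | (hz | hz)
  · left
    rw [gA z (hA0A hz), (hh j).2 z (Finset.mem_union_left _ hz)]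
    exact Finset.mem_image.2 ⟨z, Finset.mem_union_left _ hz, gA z (hA0A hz)⟩
  · right
    rw [gA z (Finset.filter_subset _ _ hz)]
    exact Finset.mem_image_of_mem _ hz
  · left
    rw [gB0 z hz, (hh j).2 z (Finset.mem_union_right _ hz)]
    exact Finset.mem_image.2 ⟨z, Finset.mem_union_right _ (hB0B hz), gB0 z hz⟩
  · left
    rw [hfix j z (Finset.mem_insert_of_mem hz)]
    exact Finset.mem_image_of_mem _ (Finset.mem_union_right _ (Finset.filter_subset _ _ hz))

lemma dis1 (hG : Finry G) (hO : Olig G) (F : Finset ℕ) (a : ℕ) (ha : a ∈ acl G F) :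
    a ∈ acl G ∅ ∨ ∃ b ∈ F, a ∈ acl G {b} := by
  classical
  induction F using Finset.induction_on with
  | empty => exact Or.inl ha
  | insert b F hb ih =>
    rw [Finset.insert_eq] at ha
    rcases dis2 hG hO ha with h | h
    · exact Or.inr ⟨b, Finset.mem_insert_self _ _, h⟩
    · rcases ih h with h | ⟨b', hb', h⟩
      · exact Or.inl h
      · exact Or.inr ⟨b', Finset.mem_insert_of_mem hb', h⟩

lemma exch1 (hG : Finry G) (hO : Olig G) {a b : ℕ} (hb : b ∈ acl G {a}) (hb0 : b ∉ acl G ∅) :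
    a ∈ acl G {b} := by
  classical
  by_contra hcon
  have hinf : (orb G {b} a).Infinite := hcon
  obtain ⟨k₀, hk⟩ := f0 hG hO hb0 1
  obtain ⟨Y, hY, hYc⟩ := hinf.exists_subset_card_eq k₀
  let t : Fin k₀ → ℕ := fun i => Y.equivFin.symm (i.cast hYc.symm)
  have htinj : Function.Injective t := by
    intro i j hij
    have h1 := Y.equivFin.symm.injective (Subtype.ext hij)
    exact Fin.cast_injective _ h1
  obtain ⟨i, hi⟩ := hk (fun i => {t i}) (by
    intro i j hij
    rw [Finset.disjoint_singleton]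
    exact fun h => hij (htinj h)) (fun i => by simp)
  apply hi
  obtain ⟨u, hu, hu2⟩ := hY (Y.equivFin.symm (i.cast hYc.symm)).2
  have h1 : u b ∈ acl G (({a} : Finset ℕ).image u) := (mem_acl_conj hu.1).2 hb
  rw [hu.2 b (Finset.mem_singleton_self b), Finset.image_singleton, hu2] at h1
  simpa using h1

lemma exch2 (hG : Finry G) (hO : Olig G) (a b : ℕ) (_ : a ∉ acl G ∅) (hb : b ∈ cell G a) :
    cell G b = cell G a := by
  have h1 := exch1 hG hO hb.1 hb.2
  have e : acl G {b} = acl G {a} := by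
    apply Set.Subset.antisymm
    · apply acl_subset_acl
      simpa using hb.1
    · apply acl_subset_acl
      simpa using h1
  unfold cell
  rw [e]

lemma stat1 (hG : Finry G) (hO : Olig G) (F : Finset ℕ) (a b : ℕ) (ha : a ∉ acl G F)
    (hb : b ∉ acl G F) (hab : b ∈ orb G ∅ a) : b ∈ orb G F a := by
  classical
  have hFfin := acl_fin hO F
  have hKfin := acl_fin hO ∅
  set F' := hFfin.toFinset with hF'
  set K := hKfin.toFinset with hK
  have mF' : ∀ x, x ∈ F' ↔ x ∈ acl G F := fun x => by rw [hF', Set.Finite.mem_toFinset]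
  have mK : ∀ x, x ∈ K ↔ x ∈ acl G ∅ := fun x => by rw [hK, Set.Finite.mem_toFinset]
  have hFF' : F ⊆ F' := fun x hx => (mF' x).2 (subset_acl G F hx)
  have hF'cl : acl G F' ⊆ acl G F := acl_subset_acl fun x hx => (mF' x).1 hx
  have hKcl : acl G K ⊆ acl G ∅ := acl_subset_acl fun x hx => (mK x).1 hx
  have ha0 : a ∉ acl G ∅ := fun h => ha (acl_mono (Finset.empty_subset F) h)
  obtain ⟨g0, hg0, hg0a⟩ := hab
  -- an element fixing `K`
  obtain ⟨g, hg, hga⟩ : ∃ g ∈ Fx G K, g a = b := by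
    obtain ⟨h, hh, hh2⟩ := neumann (G := G) (F := K) (D := {a}) {x | g0 x ≠ x} (hG g0 hg0.1) (by
      intro d hd hmem
      rw [Finset.mem_singleton.1 hd] at hmem
      exact ha0 (hKcl hmem))
    have hfix : g0 (h a) = h a := by
      have := hh2 a (Finset.mem_singleton_self a)
      simpa using this
    refine ⟨g0 * h⁻¹ * g0⁻¹ * h, ⟨?_, ?_⟩, ?_⟩
    · exact G.mul_mem (G.mul_mem (G.mul_mem hg0.1 (G.inv_mem hh.1)) (G.inv_mem hg0.1)) hh.1
    · intro x hx
      have h1 : g0⁻¹ x ∈ K := by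
        rw [mK, mem_acl_empty (G.inv_mem hg0.1), ← mK]
        exact hx
      have h2 : h⁻¹ (g0⁻¹ x) = g0⁻¹ x := ((Fx G K).inv_mem hh).2 _ h1
      simp only [Equiv.Perm.mul_apply]
      rw [hh.2 x hx, h2]
      simp
    · simp only [Equiv.Perm.mul_apply]
      have h1 : g0⁻¹ (h a) = h a := by
        rw [Equiv.Perm.inv_eq_iff_eq]; exact hfix.symm
      rw [h1]
      simp [hg0a]
  -- move `F' \ K` off the support of `g`
  obtain ⟨t, ht, ht2⟩ := neumann (G := G) (F := {a, b}) (D := F' \ K) {x | g x ≠ x}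
    (hG g hg.1) (by
      intro d hd hmem
      obtain ⟨hdF, hdK⟩ := Finset.mem_sdiff.1 hd
      rw [mK] at hdK
      rw [mF'] at hdF
      rcases dis1 hG hO _ _ hmem with h | ⟨x, hx, h⟩
      · exact hdK h
      · have h1 := exch1 hG hO h hdK
        have h2 : x ∈ acl G F := by
          have : acl G {d} ⊆ acl G F := acl_subset_acl (by simpa using hdF)
          exact this h1
        rcases Finset.mem_insert.1 hx with rfl | hx
        · exact ha h2
        · rw [Finset.mem_singleton.1 hx] at h2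
          exact hb h2)
  apply orb_anti hFF'
  refine ⟨t⁻¹ * g * t, ⟨G.mul_mem (G.mul_mem (G.inv_mem ht.1) hg.1) ht.1, ?_⟩, ?_⟩
  · intro x hx
    simp only [Equiv.Perm.mul_apply]
    rw [Equiv.Perm.inv_eq_iff_eq]
    by_cases hxK : x ∈ K
    · apply hg.2
      rw [mK, mem_acl_empty ht.1, ← mK]
      exact hxK
    · have := ht2 x (Finset.mem_sdiff.2 ⟨hx, hxK⟩)
      simpa using this
  · simp only [Equiv.Perm.mul_apply]
    rw [ht.2 a (by simp), hga, Equiv.Perm.inv_eq_iff_eq, ht.2 b (by simp)]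

theorem grp : T_GRP := by
  intro G hG hO
  exact ⟨acl_fin hO, dis1 hG hO, exch2 hG hO, stat1 hG hO, orbs_finite hO ∅⟩

end olig

end Pool.Agent.H92.UV
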